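import Pool.Agent.Helper96.VF.Goals

/-!
Helper62, packet VF-LOW (12245) of helper96: the size of the extremal set is `F n`.
-/

set_option autoImplicit false

namespace Pool.Agent.Helper62.VF

open Pool.Agent.Helper96.VF

theorem g_pos {y : ℕ} (hy : 1 ≤ y) : 1 ≤ g y := by
  unfold g H
  rw [if_neg (by omega : ¬ y = 0)]
  have : 1 ≤ Nat.log 3 y + Nat.log 4 y + 2 - 1 := by omega
  exact le_max_of_le_left this

theorem mem_Cop {n m : ℕ} : m ∈ Cop n ↔ (1 ≤ m ∧ m ≤ n) ∧ Nat.Coprime m 6 := by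
  unfold Cop
  rw [Finset.mem_filter, Finset.mem_Icc]

theorem Kap_ge {y : ℕ} (h : Kap y) : 16 ≤ y := by
  obtain ⟨⟨j, hj, _⟩, _⟩ := h
  have : 1 ≤ 4 ^ j := Nat.one_le_pow _ _ (by norm_num)
  omega

theorem card_eq (n : ℕ) [DecidablePred fun m => Kap (n / m)]
    [DecidablePred fun m => 5 ∣ m ∧ Kap (n / (m / 5))] :
    ((Cop n).filter fun m => Kap (n / m)).card
      = ((Cop n).filter fun m => 5 ∣ m ∧ Kap (n / (m / 5))).card := by
  refine Finset.card_bij (fun m _ => 5 * m) ?_ ?_ ?_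
  · intro m hm
    rw [Finset.mem_filter, mem_Cop] at hm
    obtain ⟨⟨⟨h1, h2⟩, h3⟩, h4⟩ := hm
    have h5 : 16 ≤ n / m := Kap_ge h4
    have h6 : 16 * m ≤ n := (Nat.le_div_iff_mul_le (by omega)).mp h5
    rw [Finset.mem_filter, mem_Cop]
    refine ⟨⟨⟨by omega, by omega⟩, ?_⟩, ⟨m, rfl⟩, ?_⟩
    · exact Nat.Coprime.mul_left (by decide) h3
    · rw [Nat.mul_div_cancel_left m (by norm_num)]
      exact h4
  · intro a _ b _ h
    simpa using h
  · intro m hm
    rw [Finset.mem_filter, mem_Cop] at hm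
    obtain ⟨⟨⟨h1, h2⟩, h3⟩, ⟨k, rfl⟩, h5⟩ := hm
    rw [Nat.mul_div_cancel_left k (by norm_num)] at h5
    refine ⟨k, ?_, rfl⟩
    rw [Finset.mem_filter, mem_Cop]
    exact ⟨⟨⟨by omega, by omega⟩, Nat.Coprime.coprime_dvd_left ⟨5, by ring⟩ h3⟩, h5⟩

theorem sum_sub_card (n : ℕ) (P : ℕ → Prop) [DecidablePred P] :
    ∑ m ∈ Cop n, (g (n / m) - if P m then 1 else 0) + ((Cop n).filter P).card
      = ∑ m ∈ Cop n, g (n / m) := by
  rw [Finset.card_filter, ← Finset.sum_add_distrib]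
  refine Finset.sum_congr rfl fun m hm => ?_
  rw [mem_Cop] at hm
  have h1 : 1 ≤ n / m := (Nat.le_div_iff_mul_le (by omega)).mpr (by omega)
  have h2 := g_pos h1
  split_ifs <;> omega

/-- LOW. -/
theorem gLOW (hCARD : CARD) (hVAL : VAL) : LOW := by
  classical
  intro n
  have h1 : (Aset n).card
      = ∑ m ∈ Cop n, (g (n / m) - if 5 ∣ m ∧ Kap (n / (m / 5)) then 1 else 0) := by
    rw [hCARD n]
    refine Finset.sum_congr rfl fun m hm => ?_
    rw [mem_Cop] at hm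
    refine Eq.trans ?_ ((hVAL n m (by omega) (by omega)).trans ?_)
    · split_ifs <;> rfl
    · split_ifs <;> rfl
  have h2 : F n = ∑ m ∈ Cop n, (g (n / m) - if Kap (n / m) then 1 else 0) := by
    unfold F
    refine Finset.sum_congr rfl fun m hm => ?_
    split_ifs <;> rfl
  have h3 : ∑ m ∈ Cop n, (g (n / m) - if 5 ∣ m ∧ Kap (n / (m / 5)) then 1 else 0)
      + ((Cop n).filter fun m => 5 ∣ m ∧ Kap (n / (m / 5))).card = ∑ m ∈ Cop n, g (n / m) :=
    sum_sub_card n _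
  have h4 : ∑ m ∈ Cop n, (g (n / m) - if Kap (n / m) then 1 else 0)
      + ((Cop n).filter fun m => Kap (n / m)).card = ∑ m ∈ Cop n, g (n / m) :=
    sum_sub_card n _
  have h5 : ((Cop n).filter fun m => Kap (n / m)).card
      = ((Cop n).filter fun m => 5 ∣ m ∧ Kap (n / (m / 5))).card := card_eq n
  rw [h1, h2]
  omega

end Pool.Agent.Helper62.VF
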