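import Pool.Agent.Helper96.VF.GoalsL

/-!
Helper62, packet VF-SERB (12259) of helper96: the second inner sum.
-/

set_option autoImplicit false

namespace Pool.Agent.Helper62.VF

open Pool.Agent.Helper96.VF

theorem mu_zero {a b c d : ℝ} (hb : 0 < b) (hd : 0 < d) (h : min b d ≤ max a c) :
    mu a b c d = 0 := by
  unfold mu
  have h1 : 0 < min b d := lt_min hb hd
  have h2 : 1 / max a c ≤ 1 / min b d := one_div_le_one_div_of_le h1 h
  exact max_eq_left (by linarith)

theorem mu_val {a b c d x y : ℝ} (hx : 0 < x) (hxy : x ≤ y) (h1 : max a c = x)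
    (h2 : min b d = y) : mu a b c d = 1 / x - 1 / y := by
  unfold mu
  rw [h1, h2]
  have h3 : 1 / y ≤ 1 / x := one_div_le_one_div_of_le hx hxy
  exact max_eq_right (by linarith)

theorem kk_bound (b : ℕ) : (2 : ℝ) ^ kk b ≤ 3 ^ b ∧ (3 : ℝ) ^ b < 2 * 2 ^ kk b := by
  have h1 : 2 ^ kk b ≤ 3 ^ b := Nat.pow_log_le_self 2 (by positivity)
  have h2 : 3 ^ b < 2 ^ (kk b + 1) := Nat.lt_pow_succ_log_self (by norm_num) _
  constructor
  · exact_mod_cast h1
  · rw [pow_succ, mul_comm] at h2
    exact_mod_cast h2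

/-- SERB. -/
theorem gSERB : SERB := by
  classical
  intro b
  obtain ⟨h1, h2⟩ := kk_bound b
  have hU : (0 : ℝ) < 3 ^ b := by positivity
  have hT : (0 : ℝ) < 2 ^ kk b := by positivity
  have hmm : ∀ j : ℕ, mm 16 20 10 12 (j, b)
      = mu (16 * 4 ^ j) (20 * 4 ^ j) (10 * 3 ^ b) (12 * 3 ^ b) := by
    intro j
    unfold mm
    norm_num
  rcases Nat.even_or_odd (kk b) with he | ho
  · obtain ⟨i, hi⟩ := he
    have hTi : (2 : ℝ) ^ kk b = 4 ^ i := by
      rw [hi, ← two_mul, pow_mul]; norm_num
    have hz : ∀ j, j ≠ i → mm 16 20 10 12 (j, b) = 0 := by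
      intro j hj
      rw [hmm]
      apply mu_zero (by positivity) (by positivity)
      rcases lt_or_gt_of_ne hj with h | h
      · have h3 : (4 : ℝ) ^ (j + 1) ≤ 4 ^ i := pow_le_pow_right₀ (by norm_num) h
        rw [pow_succ] at h3
        refine (min_le_left _ _).trans (le_trans ?_ (le_max_right _ _))
        rw [hTi] at h1
        linarith
      · have h3 : (4 : ℝ) ^ (i + 1) ≤ 4 ^ j := pow_le_pow_right₀ (by norm_num) h
        rw [pow_succ] at h3
        refine (min_le_right _ _).trans (le_trans ?_ (le_max_left _ _))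
        rw [hTi] at h2 hT
        linarith
    rw [tsum_eq_single i hz, hmm, ← hTi, wb, if_pos ⟨i, hi⟩]
    by_cases c1 : 5 * 2 ^ kk b ≤ 3 * 3 ^ b
    · rw [if_pos c1]
      have c1' : (5 : ℝ) * 2 ^ kk b ≤ 3 * 3 ^ b := by exact_mod_cast c1
      rw [mu_val (x := 10 * 3 ^ b) (y := 20 * 2 ^ kk b) (by positivity) (by linarith)
        (max_eq_right (by linarith)) (min_eq_left (by linarith))]
    · rw [if_neg c1]
      have c1' : (3 : ℝ) * 3 ^ b < 5 * 2 ^ kk b := by
        push Not at c1
        exact_mod_cast c1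
      by_cases c2 : 8 * 2 ^ kk b < 5 * 3 ^ b
      · rw [if_pos c2]
        have c2' : (8 : ℝ) * 2 ^ kk b < 5 * 3 ^ b := by exact_mod_cast c2
        rw [mu_val (x := 10 * 3 ^ b) (y := 12 * 3 ^ b) (by positivity) (by linarith)
          (max_eq_right (by linarith)) (min_eq_right (by linarith))]
        field_simp
        norm_num
      · rw [if_neg c2]
        have c2' : (5 : ℝ) * 3 ^ b ≤ 8 * 2 ^ kk b := by
          push Not at c2
          exact_mod_cast c2
        by_cases c3 : 4 * 2 ^ kk b < 3 * 3 ^ b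
        · rw [if_pos c3]
          have c3' : (4 : ℝ) * 2 ^ kk b < 3 * 3 ^ b := by exact_mod_cast c3
          rw [mu_val (x := 16 * 2 ^ kk b) (y := 12 * 3 ^ b) (by positivity) (by linarith)
            (max_eq_left (by linarith)) (min_eq_right (by linarith))]
        · rw [if_neg c3]
          have c3' : (3 : ℝ) * 3 ^ b ≤ 4 * 2 ^ kk b := by
            push Not at c3
            exact_mod_cast c3
          apply mu_zero (by positivity) (by positivity)
          refine (min_le_right _ _).trans (le_trans ?_ (le_max_left _ _))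
          linarith
  · obtain ⟨i, hi⟩ := ho
    have hTi : (2 : ℝ) ^ kk b = 2 * 4 ^ i := by
      rw [hi, pow_succ, pow_mul]; norm_num; ring
    have hz : ∀ j, mm 16 20 10 12 (j, b) = 0 := by
      intro j
      rw [hmm]
      apply mu_zero (by positivity) (by positivity)
      rcases Nat.lt_or_ge i j with h | h
      · have h3 : (4 : ℝ) ^ (i + 1) ≤ 4 ^ j := pow_le_pow_right₀ (by norm_num) h
        rw [pow_succ] at h3
        refine (min_le_right _ _).trans (le_trans ?_ (le_max_left _ _))
        rw [hTi] at h2 hT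
        linarith
      · have h3 : (4 : ℝ) ^ j ≤ 4 ^ i := pow_le_pow_right₀ (by norm_num) h
        refine (min_le_left _ _).trans (le_trans ?_ (le_max_right _ _))
        rw [hTi] at h1
        linarith
    have hne : ¬ Even (kk b) := by
      rw [Nat.not_even_iff_odd]
      exact ⟨i, hi⟩
    rw [wb, if_neg hne]
    simp only [hz, tsum_zero]

end Pool.Agent.Helper62.VF
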